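import Mathlib

/-!
# Three-terminal inequality for bond percolation: the finite combinatorial core

Proof idea.  Explore the cluster of the terminal `a` edge by edge; `A` is the explored cluster,
`H` the finite set of unexplored edges.  For such a state write `β = P(A ↔ b)`,
`v = P(A ↔ c, A ≁ b)`, `u = P(A ↔ b, A ≁ c)`, `θ = 1 - β` and let `N` be the probability that
`b` and `c` are not joined by open edges avoiding `A`.
* `negcorr`: the events `{A ↔ c, b ≁ c off A}` and `{A ↔ b}` are negatively correlated.
* `static`: hence `θ (N - θ) ≤ β v + θ u` in every state.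
* `main_ineq`: if `τ ≤ θ` and `ε ≤ N` at the start, then
  `τ (ε - τ) β ≤ (1 - τ) ((1 - τ) v + τ u)`; the proof is an induction on the number of
  unexplored edges, in which the probability of one edge is raised until `θ = τ`.
* `three_terminal`: the conclusion with `δ = ε ^ 3 / 4`.
-/

namespace Pool.Agent.PercThree

/-! ### Finite expectation over subsets of a finite set of edges -/

section expectation

variable {E : Type*} [DecidableEq E]

/-- expectation of `f` of the random subset of `H` containing each `e` with probability `p e` -/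
noncomputable def ex (p : E → ℝ) (H : Finset E) (f : Finset E → ℝ) : ℝ :=
  ∑ S ∈ H.powerset, ((∏ e ∈ S, p e) * ∏ e ∈ H \ S, (1 - p e)) * f S

lemma ex_insert (p : E → ℝ) {H : Finset E} {e : E} (he : e ∉ H) (f : Finset E → ℝ) :
    ex p (insert e H) f
      = p e * ex p H (fun S => f (insert e S)) + (1 - p e) * ex p H f := by
  unfold ex
  rw [Finset.sum_powerset_insert he, add_comm, Finset.mul_sum, Finset.mul_sum]
  congr 1
  · refine Finset.sum_congr rfl fun S hS => ?_
    have hS' : S ⊆ H := Finset.mem_powerset.1 hS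
    have heS : e ∉ S := fun h => he (hS' h)
    rw [Finset.prod_insert heS, Finset.insert_sdiff_insert,
      show H \ insert e S = H \ S by
        ext x
        simp only [Finset.mem_sdiff, Finset.mem_insert, not_or]
        constructor
        · rintro ⟨h1, _, h3⟩; exact ⟨h1, h3⟩
        · rintro ⟨h1, h3⟩; exact ⟨h1, fun h => he (h ▸ h1), h3⟩]
    ring
  · refine Finset.sum_congr rfl fun S hS => ?_
    have hS' : S ⊆ H := Finset.mem_powerset.1 hS
    have heS : e ∉ S := fun h => he (hS' h)
    rw [Finset.insert_sdiff_of_notMem _ heS, Finset.prod_insert (by simp [he])]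
    ring

lemma ex_mono {p : E → ℝ} (hp : ∀ e, 0 ≤ p e ∧ p e ≤ 1) {H : Finset E} {f g : Finset E → ℝ}
    (h : ∀ S ⊆ H, f S ≤ g S) : ex p H f ≤ ex p H g := by
  unfold ex
  refine Finset.sum_le_sum fun S hS => ?_
  refine mul_le_mul_of_nonneg_left (h S (Finset.mem_powerset.1 hS)) ?_
  refine mul_nonneg (Finset.prod_nonneg fun e _ => (hp e).1)
    (Finset.prod_nonneg fun e _ => by linarith [(hp e).2])

lemma ex_congr {p : E → ℝ} {H : Finset E} {f g : Finset E → ℝ}
    (h : ∀ S ⊆ H, f S = g S) : ex p H f = ex p H g := by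
  unfold ex
  refine Finset.sum_congr rfl fun S hS => ?_
  rw [h S (Finset.mem_powerset.1 hS)]

lemma ex_congr_p {p q : E → ℝ} {H : Finset E} (f : Finset E → ℝ)
    (h : ∀ e ∈ H, p e = q e) : ex p H f = ex q H f := by
  unfold ex
  refine Finset.sum_congr rfl fun S hS => ?_
  have hS' : S ⊆ H := Finset.mem_powerset.1 hS
  have h1 : ∏ e ∈ S, p e = ∏ e ∈ S, q e := Finset.prod_congr rfl fun e he => h e (hS' he)
  have h2 : ∏ e ∈ H \ S, (1 - p e) = ∏ e ∈ H \ S, (1 - q e) :=
    Finset.prod_congr rfl fun e he => by rw [h e (Finset.mem_sdiff.1 he).1]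
  rw [h1, h2]

lemma ex_add (p : E → ℝ) (H : Finset E) (f g : Finset E → ℝ) :
    ex p H (fun S => f S + g S) = ex p H f + ex p H g := by
  unfold ex
  rw [← Finset.sum_add_distrib]
  exact Finset.sum_congr rfl fun S _ => by ring

lemma ex_mul_left (p : E → ℝ) (H : Finset E) (c : ℝ) (f : Finset E → ℝ) :
    ex p H (fun S => c * f S) = c * ex p H f := by
  unfold ex
  rw [Finset.mul_sum]
  exact Finset.sum_congr rfl fun S _ => by ring

lemma ex_one (p : E → ℝ) (H : Finset E) : ex p H (fun _ => 1) = 1 := by
  induction H using Finset.induction_on with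
  | empty => simp [ex]
  | insert e H he ih => rw [ex_insert p he, ih]; ring

lemma ex_zero (p : E → ℝ) (H : Finset E) : ex p H (fun _ => 0) = 0 := by
  unfold ex; simp

lemma ex_const (p : E → ℝ) (H : Finset E) (c : ℝ) : ex p H (fun _ => c) = c := by
  have := ex_mul_left p H c (fun _ => 1)
  rw [ex_one] at this
  simpa using this

lemma ex_nonneg {p : E → ℝ} (hp : ∀ e, 0 ≤ p e ∧ p e ≤ 1) {H : Finset E} {f : Finset E → ℝ}
    (h : ∀ S ⊆ H, 0 ≤ f S) : 0 ≤ ex p H f := by
  rw [← ex_zero p H]; exact ex_mono hp h

lemma ex_le_one {p : E → ℝ} (hp : ∀ e, 0 ≤ p e ∧ p e ≤ 1) {H : Finset E} {f : Finset E → ℝ}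
    (h : ∀ S ⊆ H, f S ≤ 1) : ex p H f ≤ 1 := by
  rw [← ex_one p H]; exact ex_mono hp h

end expectation

open Classical in
/-- indicator of a proposition -/
noncomputable def ind (q : Prop) : ℝ := if q then 1 else 0

lemma ind_true {q : Prop} (h : q) : ind q = 1 := by simp [ind, h]
lemma ind_false {q : Prop} (h : ¬ q) : ind q = 0 := by simp [ind, h]
lemma ind_nonneg (q : Prop) : 0 ≤ ind q := by by_cases h : q <;> simp [ind, h]
lemma ind_le_one (q : Prop) : ind q ≤ 1 := by by_cases h : q <;> simp [ind, h]
lemma ind_mono {q r : Prop} (h : q → r) : ind q ≤ ind r := by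
  by_cases hq : q
  · simp [ind, hq, h hq]
  · simp [ind_false hq, ind_nonneg]
lemma ind_congr {q r : Prop} (h : q ↔ r) : ind q = ind r := by rw [h]

/-! ### Closures -/

section closure

variable {V : Type*}

/-- the set of points reachable from `X` along `r` -/
def cl (r : V → V → Prop) (X : Set V) : Set V := {y | ∃ x ∈ X, Relation.ReflTransGen r x y}

lemma subset_cl (r : V → V → Prop) {X : Set V} {x : V} (h : x ∈ X) : x ∈ cl r X :=
  ⟨x, h, Relation.ReflTransGen.refl⟩

lemma cl_step {r : V → V → Prop} {X : Set V} {x y : V} (h : x ∈ cl r X) (hxy : r x y) :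
    y ∈ cl r X := by
  obtain ⟨z, hz, h⟩ := h
  exact ⟨z, hz, h.tail hxy⟩

lemma cl_min {r : V → V → Prop} {X Z : Set V} (hX : ∀ x ∈ X, x ∈ Z)
    (hZ : ∀ x y, x ∈ Z → r x y → y ∈ Z) {y : V} (h : y ∈ cl r X) : y ∈ Z := by
  obtain ⟨x, hx, h⟩ := h
  induction h with
  | refl => exact hX x hx
  | tail _ hbc ih => exact hZ _ _ ih hbc

lemma cl_mono {r r' : V → V → Prop} {X X' : Set V} (hr : ∀ x y, r x y → r' x y)
    (hX : ∀ x ∈ X, x ∈ X') {y : V} (h : y ∈ cl r X) : y ∈ cl r' X' :=
  cl_min (Z := cl r' X') (fun x hx => subset_cl _ (hX x hx))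
    (fun _ _ hx hxy => cl_step hx (hr _ _ hxy)) h

lemma cl_symm {r : V → V → Prop} (hr : ∀ x y, r x y → r y x) {x y : V}
    (h : y ∈ cl r {x}) : x ∈ cl r {y} := by
  obtain ⟨z, hz, h⟩ := h
  rw [Set.mem_singleton_iff] at hz
  subst hz
  refine ⟨y, rfl, ?_⟩
  induction h with
  | refl => exact Relation.ReflTransGen.refl
  | tail _ hbc ih => exact Relation.ReflTransGen.head (hr _ _ hbc) ih

lemma cl_trans {r : V → V → Prop} {X : Set V} {x y : V} (h : x ∈ cl r X)
    (hy : y ∈ cl r {x}) : y ∈ cl r X :=
  cl_min (Z := cl r X) (by rintro z rfl; exact h) (fun _ _ hx hxy => cl_step hx hxy) hy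

/-- adjacency through an edge of `S` -/
def adj (S : Finset (Sym2 V)) (x y : V) : Prop := s(x, y) ∈ S

/-- adjacency through an edge of `S` with both ends outside `A` -/
def adjA (S : Finset (Sym2 V)) (A : Set V) (x y : V) : Prop := s(x, y) ∈ S ∧ x ∉ A ∧ y ∉ A

lemma adj_symm (S : Finset (Sym2 V)) (x y : V) (h : adj S x y) : adj S y x := by
  unfold adj at *; rwa [Sym2.eq_swap]

lemma adjA_symm (S : Finset (Sym2 V)) (A : Set V) (x y : V) (h : adjA S A x y) :
    adjA S A y x := by
  obtain ⟨h1, h2, h3⟩ := h
  exact ⟨by rwa [Sym2.eq_swap], h3, h2⟩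

variable [DecidableEq V]

lemma cl_adj_insert {S : Finset (Sym2 V)} {X : Set V} {s t x : V} (hs : s ∈ X) :
    x ∈ cl (adj (insert s(s, t) S)) X ↔ x ∈ cl (adj S) (insert t X) := by
  constructor
  · intro h
    refine cl_min (Z := cl (adj S) (insert t X)) (fun y hy => subset_cl _ (Or.inr hy)) ?_ h
    intro y z hy hyz
    rcases Finset.mem_insert.1 hyz with h1 | h1
    · rcases Sym2.eq_iff.1 h1 with ⟨_, rfl⟩ | ⟨_, rfl⟩
      · exact subset_cl _ (Or.inl rfl)
      · exact subset_cl _ (Or.inr hs)
    · exact cl_step hy h1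
  · intro h
    refine cl_min (Z := cl (adj (insert s(s, t) S)) X) ?_ ?_ h
    · intro y hy
      rcases hy with rfl | hy
      · exact cl_step (subset_cl _ hs) (Finset.mem_insert_self _ _)
      · exact subset_cl _ hy
    · intro y z hy hyz
      exact cl_step hy (Finset.mem_insert_of_mem hyz)

/-- edges touching `A` do not matter for connections avoiding `A` -/
lemma cl_adjA_insert_of_mem {S : Finset (Sym2 V)} {A X : Set V} {s t x : V} (hs : s ∈ A) :
    x ∈ cl (adjA (insert s(s, t) S) A) X ↔ x ∈ cl (adjA S A) X := by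
  constructor
  · refine cl_mono ?_ (fun _ h => h)
    rintro y z ⟨h1, h2, h3⟩
    refine ⟨?_, h2, h3⟩
    rcases Finset.mem_insert.1 h1 with h | h
    · rcases Sym2.eq_iff.1 h with ⟨rfl, _⟩ | ⟨_, rfl⟩
      · exact absurd hs h2
      · exact absurd hs h3
    · exact h
  · refine cl_mono ?_ (fun _ h => h)
    rintro y z ⟨h1, h2, h3⟩
    exact ⟨Finset.mem_insert_of_mem h1, h2, h3⟩

lemma cl_adjA_insert {S : Finset (Sym2 V)} {A X : Set V} {s t x : V} (hs : s ∈ X) (hsA : s ∉ A)
    (hx : x ∉ A) :
    x ∈ cl (adjA (insert s(s, t) S) A) X ↔ x ∈ cl (adjA S A) (insert t X) := by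
  by_cases ht : t ∈ A
  · rw [Sym2.eq_swap, cl_adjA_insert_of_mem ht]
    constructor
    · exact cl_mono (fun _ _ h => h) (fun _ h => Or.inr h)
    · intro h
      have := cl_min (Z := cl (adjA S A) X ∪ {t}) ?_ ?_ h
      · rcases this with h | h
        · exact h
        · rw [Set.mem_singleton_iff] at h; subst h; exact absurd ht hx
      · rintro y (rfl | hy)
        · exact Or.inr rfl
        · exact Or.inl (subset_cl _ hy)
      · rintro y z (hy | hy) hyz
        · exact Or.inl (cl_step hy hyz)
        · rw [Set.mem_singleton_iff] at hy; subst hy; exact absurd ht hyz.2.1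
  · constructor
    · intro h
      refine cl_min (Z := cl (adjA S A) (insert t X)) (fun y hy => subset_cl _ (Or.inr hy)) ?_ h
      intro y z hy hyz
      rcases Finset.mem_insert.1 hyz.1 with h1 | h1
      · rcases Sym2.eq_iff.1 h1 with ⟨_, rfl⟩ | ⟨_, rfl⟩
        · exact subset_cl _ (Or.inl rfl)
        · exact subset_cl _ (Or.inr hs)
      · exact cl_step hy ⟨h1, hyz.2⟩
    · intro h
      refine cl_min (Z := cl (adjA (insert s(s, t) S) A) X) ?_ ?_ h
      · intro y hy
        rcases hy with rfl | hy
        · exact cl_step (subset_cl _ hs) ⟨Finset.mem_insert_self _ _, hsA, ht⟩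
        · exact subset_cl _ hy
      · intro y z hy hyz
        exact cl_step hy ⟨Finset.mem_insert_of_mem hyz.1, hyz.2⟩

/-- `c` is joined to `A`, but not to `B` outside `A` -/
def Lev (S : Finset (Sym2 V)) (A B : Set V) (c : V) : Prop :=
  c ∈ cl (adj S) A ∧ c ∉ cl (adjA S A) B

/-- `B` is joined to `A` -/
def Fev (S : Finset (Sym2 V)) (A B : Set V) : Prop := ∃ x ∈ B, x ∈ cl (adj S) A

lemma Fev_insert {S : Finset (Sym2 V)} {A B : Set V} {s t : V} (hs : s ∈ B) :
    Fev (insert s(s, t) S) A B ↔ Fev S A (insert t B) := by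
  constructor
  · rintro ⟨x, hx, h⟩
    by_contra hcon
    have hd : ∀ y ∈ insert t B, y ∉ cl (adj S) A := fun y hy hy' => hcon ⟨y, hy, hy'⟩
    have : x ∈ cl (adj S) A := by
      refine cl_min (Z := cl (adj S) A) (fun y hy => subset_cl _ hy) ?_ h
      intro y z hy hyz
      rcases Finset.mem_insert.1 hyz with h1 | h1
      · rcases Sym2.eq_iff.1 h1 with ⟨rfl, _⟩ | ⟨rfl, _⟩
        · exact absurd hy (hd _ (Or.inr hs))
        · exact absurd hy (hd _ (Or.inl rfl))
      · exact cl_step hy h1
    exact hd x (Or.inr hx) this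
  · rintro ⟨x, hx, h⟩
    have h' : x ∈ cl (adj (insert s(s, t) S)) A :=
      cl_mono (fun _ _ h => Finset.mem_insert_of_mem h) (fun _ h => h) h
    rcases hx with rfl | hx
    · refine ⟨s, hs, cl_step h' ?_⟩
      unfold adj
      rw [Sym2.eq_swap]
      exact Finset.mem_insert_self _ _
    · exact ⟨x, hx, h'⟩

lemma Lev_insert {S : Finset (Sym2 V)} {A B : Set V} {s t c : V} (hs : s ∈ B) (hsA : s ∉ A)
    (hc : c ∉ A) :
    Lev (insert s(s, t) S) A B c ↔ Lev S A (insert t B) c := by
  unfold Lev
  rw [cl_adjA_insert hs hsA hc]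
  constructor
  · rintro ⟨h1, h2⟩
    refine ⟨?_, h2⟩
    by_contra hcon
    -- the cluster of `c` in `S`
    have hW : ∀ y ∈ cl (adj S) {c}, y ∉ A := fun y hy hyA =>
      hcon (cl_trans (subset_cl _ hyA) (cl_symm (adj_symm S) hy))
    have hW2 : ∀ y ∈ cl (adj S) {c}, c ∈ cl (adjA S A) {y} := by
      intro y hy
      refine cl_symm (adjA_symm S A) ?_
      have : y ∈ cl (adj S) {c} ∩ cl (adjA S A) {c} := by
        refine cl_min (r := adj S) (X := {c}) ?_ ?_ hy
        · rintro x rfl
          exact ⟨subset_cl _ rfl, subset_cl _ rfl⟩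
        · rintro x z ⟨hx1, hx2⟩ hxz
          have hz := cl_step hx1 hxz
          exact ⟨hz, cl_step hx2 ⟨hxz, hW _ hx1, hW _ hz⟩⟩
      exact this.2
    have hBt : ∀ y ∈ insert t B, y ∉ cl (adj S) {c} := by
      intro y hy hyc
      exact h2 (cl_trans (subset_cl _ hy) (hW2 y hyc))
    -- so the cluster of `c` in `insert e S` is the same
    have h3 : ∀ y ∈ cl (adj (insert s(s, t) S)) {c}, y ∈ cl (adj S) {c} := by
      intro y hy
      refine cl_min (Z := cl (adj S) {c}) (fun x hx => subset_cl _ hx) ?_ hy
      intro x z hx hxz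
      rcases Finset.mem_insert.1 hxz with h | h
      · rcases Sym2.eq_iff.1 h with ⟨rfl, _⟩ | ⟨rfl, _⟩
        · exact absurd hx (hBt _ (Or.inr hs))
        · exact absurd hx (hBt _ (Or.inl rfl))
      · exact cl_step hx h
    obtain ⟨a, ha, h4⟩ := h1
    have h5 : a ∈ cl (adj (insert s(s, t) S)) {c} := cl_symm (adj_symm _) ⟨a, rfl, h4⟩
    exact hW a (h3 a h5) ha
  · rintro ⟨h1, h2⟩
    exact ⟨cl_mono (fun _ _ h => Finset.mem_insert_of_mem h) (fun _ h => h) h1, h2⟩

/-- the events `Lev` and `Fev` are negatively correlated -/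
lemma negcorr {p : Sym2 V → ℝ} (hp : ∀ e, 0 ≤ p e ∧ p e ≤ 1) (A : Set V) {c : V} (hc : c ∉ A) :
    ∀ (n : ℕ) (H : Finset (Sym2 V)), H.card = n → ∀ B : Set V,
      ex p H (fun S => ind (Lev S A B c) * ind (Fev S A B))
        ≤ ex p H (fun S => ind (Lev S A B c)) * ex p H (fun S => ind (Fev S A B)) := by
  intro n
  induction n with
  | zero =>
    intro H hH B
    rw [Finset.card_eq_zero] at hH
    subst hH
    simp [ex]
  | succ n ih =>
    intro H hH B
    by_cases hex : ∃ s t : V, s ∈ B ∧ s ∉ A ∧ t ∉ B ∧ s(s, t) ∈ H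
    · obtain ⟨s, t, hs, hsA, ht, he⟩ := hex
      obtain ⟨H', he', rfl⟩ : ∃ H', s(s, t) ∉ H' ∧ H = insert s(s, t) H' :=
        ⟨H.erase s(s, t), Finset.notMem_erase _ _, (Finset.insert_erase he).symm⟩
      have hcard : H'.card = n := by
        rw [Finset.card_insert_of_notMem he'] at hH; omega
      have ih1 := ih H' hcard (insert t B)
      have ih2 := ih H' hcard B
      rw [ex_insert p he', ex_insert p he', ex_insert p he']
      have e1 : ex p H' (fun S => ind (Lev (insert s(s, t) S) A B c)
          * ind (Fev (insert s(s, t) S) A B))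
          = ex p H' (fun S => ind (Lev S A (insert t B) c) * ind (Fev S A (insert t B))) :=
        ex_congr fun S _ => by
          rw [ind_congr (Lev_insert hs hsA hc), ind_congr (Fev_insert hs)]
      have e2 : ex p H' (fun S => ind (Lev (insert s(s, t) S) A B c))
          = ex p H' (fun S => ind (Lev S A (insert t B) c)) :=
        ex_congr fun S _ => by rw [ind_congr (Lev_insert hs hsA hc)]
      have e3 : ex p H' (fun S => ind (Fev (insert s(s, t) S) A B))
          = ex p H' (fun S => ind (Fev S A (insert t B))) :=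
        ex_congr fun S _ => by rw [ind_congr (Fev_insert hs)]
      rw [e1, e2, e3]
      have m1 : ex p H' (fun S => ind (Lev S A (insert t B) c))
          ≤ ex p H' (fun S => ind (Lev S A B c)) :=
        ex_mono hp fun S _ => ind_mono fun h =>
          ⟨h.1, fun h' => h.2 (cl_mono (fun _ _ h => h) (fun _ h => Or.inr h) h')⟩
      have m2 : ex p H' (fun S => ind (Fev S A B))
          ≤ ex p H' (fun S => ind (Fev S A (insert t B))) :=
        ex_mono hp fun S _ => ind_mono fun ⟨x, hx, h⟩ => ⟨x, Or.inr hx, h⟩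
      set q := p s(s, t) with hq
      obtain ⟨hq0, hq1⟩ := hp s(s, t)
      rw [← hq] at hq0 hq1
      generalize ex p H' (fun S => ind (Lev S A (insert t B) c) * ind (Fev S A (insert t B))) = X1
        at *
      generalize ex p H' (fun S => ind (Lev S A B c) * ind (Fev S A B)) = X2 at *
      generalize ex p H' (fun S => ind (Lev S A (insert t B) c)) = L1 at *
      generalize ex p H' (fun S => ind (Lev S A B c)) = L2 at *
      generalize ex p H' (fun S => ind (Fev S A (insert t B))) = F1 at *
      generalize ex p H' (fun S => ind (Fev S A B)) = F2 at *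
      have k1 : q * X1 ≤ q * (L1 * F1) := mul_le_mul_of_nonneg_left ih1 hq0
      have k2 : (1 - q) * X2 ≤ (1 - q) * (L2 * F2) :=
        mul_le_mul_of_nonneg_left ih2 (by linarith)
      have k3 : 0 ≤ q * (1 - q) * ((L2 - L1) * (F1 - F2)) :=
        mul_nonneg (mul_nonneg hq0 (by linarith)) (mul_nonneg (by linarith) (by linarith))
      nlinarith [k1, k2, k3]
    · push Not at hex
      -- no edge leaves `B`
      by_cases hAB : ∃ x ∈ B, x ∈ A
      · obtain ⟨x, hxB, hxA⟩ := hAB
        have hF : ∀ S : Finset (Sym2 V), Fev S A B := fun S => ⟨x, hxB, subset_cl _ hxA⟩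
        have e1 : ex p H (fun S => ind (Lev S A B c) * ind (Fev S A B))
            = ex p H (fun S => ind (Lev S A B c)) :=
          ex_congr fun S _ => by rw [ind_true (hF S), mul_one]
        have e2 : ex p H (fun S => ind (Fev S A B)) = 1 := by
          rw [← ex_one p H]
          exact ex_congr fun S _ => ind_true (hF S)
        rw [e1, e2, mul_one]
      · push Not at hAB
        have hF : ∀ S ⊆ H, ¬ Fev S A B := by
          rintro S hS ⟨x, hxB, hx⟩
          have : x ∈ Bᶜ := by
            refine cl_min (r := adj S) (X := A) (fun y hy hyB => hAB y hyB hy) ?_ hx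
            intro y z hy hyz hz
            refine hy ?_
            by_contra hyB
            have := hex z y hz (hAB z hz) hyB
            apply this
            rw [Sym2.eq_swap]
            exact hS hyz
          exact this hxB
        have e1 : ex p H (fun S => ind (Lev S A B c) * ind (Fev S A B)) = 0 := by
          rw [← ex_zero p H]
          exact ex_congr fun S hS => by rw [ind_false (hF S hS), mul_zero]
        have e2 : ex p H (fun S => ind (Fev S A B)) = 0 := by
          rw [← ex_zero p H]
          exact ex_congr fun S hS => ind_false (hF S hS)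
        rw [e1, e2, mul_zero]

/-- `x` is joined to `A` -/
def JoinedTo (S : Finset (Sym2 V)) (A : Set V) (x : V) : Prop := x ∈ cl (adj S) A

/-- `b` and `c` are joined outside `A` -/
def Out (S : Finset (Sym2 V)) (A : Set V) (b c : V) : Prop := c ∈ cl (adjA S A) {b}

/-- the static inequality -/
lemma static {p : Sym2 V → ℝ} (hp : ∀ e, 0 ≤ p e ∧ p e ≤ 1) (A : Set V) {b c : V}
    (hc : c ∉ A) (H : Finset (Sym2 V)) :
    (1 - ex p H (fun S => ind (JoinedTo S A b)))
        * (ex p H (fun S => ind (¬ Out S A b c)) - (1 - ex p H (fun S => ind (JoinedTo S A b))))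
      ≤ ex p H (fun S => ind (JoinedTo S A b)) * ex p H (fun S => ind (JoinedTo S A c ∧ ¬ JoinedTo S A b))
        + (1 - ex p H (fun S => ind (JoinedTo S A b)))
          * ex p H (fun S => ind (JoinedTo S A b ∧ ¬ JoinedTo S A c)) := by
  have key := negcorr hp A hc H.card H rfl {b}
  have hF : ∀ S : Finset (Sym2 V), Fev S A {b} ↔ JoinedTo S A b := by
    intro S
    unfold Fev JoinedTo
    simp
  have hL : ∀ S : Finset (Sym2 V), Lev S A {b} c ↔ JoinedTo S A c ∧ ¬ Out S A b c := fun S => Iff.rfl
  -- if `b`, `c` are joined outside `A` then both or none are joined to `A`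
  have hO : ∀ S : Finset (Sym2 V), Out S A b c → (JoinedTo S A b ↔ JoinedTo S A c) := by
    intro S h
    have h' : c ∈ cl (adj S) {b} := cl_mono (fun _ _ h => h.1) (fun _ h => h) h
    exact ⟨fun hb => cl_trans hb h', fun hb => cl_trans hb (cl_symm (adj_symm S) h')⟩
  set β := ex p H (fun S => ind (JoinedTo S A b)) with hβ
  set v := ex p H (fun S => ind (JoinedTo S A c ∧ ¬ JoinedTo S A b)) with hv
  set u := ex p H (fun S => ind (JoinedTo S A b ∧ ¬ JoinedTo S A c)) with hu
  set N := ex p H (fun S => ind (¬ Out S A b c)) with hN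
  set K := ex p H (fun S => ind (Lev S A {b} c) * ind (Fev S A {b})) with hK
  have e1 : ex p H (fun S => ind (Fev S A {b})) = β :=
    ex_congr fun S _ => ind_congr (hF S)
  have e2 : ex p H (fun S => ind (Lev S A {b} c)) = K + v := by
    rw [hK, hv, ← ex_add]
    refine ex_congr fun S _ => ?_
    rw [ind_congr (hF S), ind_congr (hL S)]
    have := hO S
    by_cases h1 : JoinedTo S A b <;> by_cases h2 : JoinedTo S A c <;> by_cases h3 : Out S A b c <;>
      simp_all [ind]
  rw [e1, e2] at key
  have hNle : N ≤ (1 - β) + K + u := by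
    have : N ≤ ex p H (fun S => ((1 + (-1) * ind (JoinedTo S A b))
        + ind (Lev S A {b} c) * ind (Fev S A {b})) + ind (JoinedTo S A b ∧ ¬ JoinedTo S A c)) := by
      refine ex_mono hp fun S _ => ?_
      rw [ind_congr (hF S), ind_congr (hL S)]
      by_cases h1 : JoinedTo S A b <;> by_cases h2 : JoinedTo S A c <;> by_cases h3 : Out S A b c <;>
        simp_all [ind]
    rw [ex_add, ex_add, ex_add, ex_one, ex_mul_left] at this
    linarith
  have hβ1 : β ≤ 1 := ex_le_one hp fun S _ => ind_le_one _
  have hβ0 : 0 ≤ β := ex_nonneg hp fun S _ => ind_nonneg _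
  nlinarith [mul_le_mul_of_nonneg_left hNle (show (0:ℝ) ≤ 1 - β by linarith)]

lemma main_ineq {τ ε : ℝ} (h0 : 0 < τ) (hτε : τ ≤ ε) (hε : ε ≤ 1) {b c : V} :
    ∀ (n : ℕ) (p : Sym2 V → ℝ), (∀ e, 0 ≤ p e ∧ p e ≤ 1) → ∀ H : Finset (Sym2 V), H.card = n →
      ∀ A : Set V, b ∉ A → c ∉ A →
      ε ≤ ex p H (fun S => ind (¬ Out S A b c)) →
      τ ≤ 1 - ex p H (fun S => ind (JoinedTo S A b)) →
      τ * (ε - τ) * ex p H (fun S => ind (JoinedTo S A b))
        ≤ (1 - τ) * ((1 - τ) * ex p H (fun S => ind (JoinedTo S A c ∧ ¬ JoinedTo S A b))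
          + τ * ex p H (fun S => ind (JoinedTo S A b ∧ ¬ JoinedTo S A c))) := by
  intro n
  induction n with
  | zero =>
    intro p hp H hH A hb hc hN hθ
    rw [Finset.card_eq_zero] at hH
    subst hH
    have hb' : ¬ JoinedTo (∅ : Finset (Sym2 V)) A b := by
      intro h
      exact hb (cl_min (Z := A) (fun _ h => h) (fun y z _ hyz => absurd hyz (by simp [adj])) h)
    have e1 : ex p ∅ (fun S => ind (JoinedTo S A b)) = 0 := by
      simp [ex, ind_false hb']
    rw [e1, mul_zero]
    refine mul_nonneg (by linarith) (add_nonneg (mul_nonneg (by linarith) ?_)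
      (mul_nonneg h0.le ?_)) <;> exact ex_nonneg hp fun S _ => ind_nonneg _
  | succ n ih =>
    intro p hp H hH A hb hc hN hθ
    by_cases hex : ∃ s t : V, s ∈ A ∧ t ∉ A ∧ s(s, t) ∈ H
    · obtain ⟨s, t, hs, ht, he⟩ := hex
      obtain ⟨H', he', rfl⟩ : ∃ H', s(s, t) ∉ H' ∧ H = insert s(s, t) H' :=
        ⟨H.erase s(s, t), Finset.notMem_erase _ _, (Finset.insert_erase he).symm⟩
      have hcard : H'.card = n := by
        rw [Finset.card_insert_of_notMem he'] at hH; omega
      -- the values when the edge is open and when it is closed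
      set β1 := ex p H' (fun S => ind (JoinedTo (insert s(s, t) S) A b)) with hβ1
      set β2 := ex p H' (fun S => ind (JoinedTo S A b)) with hβ2
      set v1 := ex p H' (fun S => ind (JoinedTo (insert s(s, t) S) A c
        ∧ ¬ JoinedTo (insert s(s, t) S) A b)) with hv1
      set v2 := ex p H' (fun S => ind (JoinedTo S A c ∧ ¬ JoinedTo S A b)) with hv2
      set u1 := ex p H' (fun S => ind (JoinedTo (insert s(s, t) S) A b
        ∧ ¬ JoinedTo (insert s(s, t) S) A c)) with hu1
      set u2 := ex p H' (fun S => ind (JoinedTo S A b ∧ ¬ JoinedTo S A c)) with hu2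
      set N2 := ex p H' (fun S => ind (¬ Out S A b c)) with hN2
      have hN1 : ex p H' (fun S => ind (¬ Out (insert s(s, t) S) A b c)) = N2 :=
        ex_congr fun S _ => ind_congr (not_congr (cl_adjA_insert_of_mem hs))
      have hCon : ∀ (S : Finset (Sym2 V)) (x : V),
          JoinedTo (insert s(s, t) S) A x ↔ JoinedTo S (insert t A) x := fun S x => cl_adj_insert hs
      set q := p s(s, t) with hq
      obtain ⟨hq0, hq1⟩ := hp s(s, t)
      rw [← hq] at hq0 hq1
      rw [ex_insert p he', ← hq, hN1, ← hN2] at hN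
      have hN' : ε ≤ N2 := by linarith
      rw [ex_insert p he', ← hq, ← hβ1, ← hβ2] at hθ
      have hβle : β2 ≤ β1 := ex_mono hp fun S _ => ind_mono fun h =>
        cl_mono (fun _ _ h => Finset.mem_insert_of_mem h) (fun _ h => h) h
      have hθ2 : τ ≤ 1 - β2 := by nlinarith
      have ihc := ih p hp H' hcard A hb hc hN' hθ2
      rw [← hβ2, ← hv2, ← hu2] at ihc
      rw [ex_insert p he', ex_insert p he', ex_insert p he', ← hq, ← hβ1, ← hβ2, ← hv1, ← hv2,
        ← hu1, ← hu2]
      have hv1n : 0 ≤ v1 := ex_nonneg hp fun S _ => ind_nonneg _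
      have hu1n : 0 ≤ u1 := ex_nonneg hp fun S _ => ind_nonneg _
      have hβ1n : 0 ≤ β1 := ex_nonneg hp fun S _ => ind_nonneg _
      by_cases hcase : τ ≤ 1 - β1
      · -- the open branch
        have iho : τ * (ε - τ) * β1 ≤ (1 - τ) * ((1 - τ) * v1 + τ * u1) := by
          by_cases htb : t = b
          · exfalso
            have : β1 = 1 := by
              rw [hβ1, ← ex_one p H']
              refine ex_congr fun S _ => ind_true ?_
              rw [hCon, htb]
              exact subset_cl _ (Or.inl rfl)
            linarith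
          · by_cases htc : t = c
            · have hcon : ∀ S : Finset (Sym2 V), JoinedTo (insert s(s, t) S) A c := by
                intro S
                rw [hCon, htc]
                exact subset_cl _ (Or.inl rfl)
              have hv : v1 = 1 - β1 := by
                have : v1 + β1 = 1 := by
                  rw [hv1, hβ1, ← ex_add, ← ex_one p H']
                  refine ex_congr fun S _ => ?_
                  have := hcon S
                  by_cases h1 : JoinedTo (insert s(s, t) S) A b <;> simp_all [ind]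
                linarith
              rw [hv]
              have h1 : τ * (1 - τ) * (1 - τ) ≤ (1 - τ) * ((1 - τ) * (1 - β1)) := by
                have := mul_le_mul_of_nonneg_left hcase
                  (mul_nonneg (show (0:ℝ) ≤ 1 - τ by linarith) (show (0:ℝ) ≤ 1 - τ by linarith))
                nlinarith
              have h2 : τ * (ε - τ) * β1 ≤ τ * (1 - τ) * (1 - τ) := by
                have h3 : τ * (ε - τ) ≤ τ * (1 - τ) :=
                  mul_le_mul_of_nonneg_left (by linarith) h0.le
                calc τ * (ε - τ) * β1 ≤ τ * (1 - τ) * β1 :=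
                      mul_le_mul_of_nonneg_right h3 hβ1n
                  _ ≤ τ * (1 - τ) * (1 - τ) :=
                      mul_le_mul_of_nonneg_left (by linarith)
                        (mul_nonneg h0.le (by linarith))
              have h3 : 0 ≤ (1 - τ) * (τ * u1) :=
                mul_nonneg (by linarith) (mul_nonneg h0.le hu1n)
              nlinarith
            · have hb' : b ∉ insert t A := by
                rintro (h | h)
                · exact htb h.symm
                · exact hb h
              have hc' : c ∉ insert t A := by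
                rintro (h | h)
                · exact htc h.symm
                · exact hc h
              have hN3 : ε ≤ ex p H' (fun S => ind (¬ Out S (insert t A) b c)) := by
                refine hN'.trans (ex_mono hp fun S _ => ind_mono fun h h' => h ?_)
                refine cl_mono ?_ (fun _ h => h) h'
                rintro x y ⟨h1, h2, h3⟩
                exact ⟨h1, fun h => h2 (Or.inr h), fun h => h3 (Or.inr h)⟩
              have e1 : ex p H' (fun S => ind (JoinedTo S (insert t A) b)) = β1 :=
                ex_congr fun S _ => ind_congr (hCon S b).symm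
              have e2 : ex p H' (fun S => ind (JoinedTo S (insert t A) c ∧ ¬ JoinedTo S (insert t A) b))
                  = v1 := ex_congr fun S _ => ind_congr (by rw [hCon, hCon])
              have e3 : ex p H' (fun S => ind (JoinedTo S (insert t A) b ∧ ¬ JoinedTo S (insert t A) c))
                  = u1 := ex_congr fun S _ => ind_congr (by rw [hCon, hCon])
              have := ih p hp H' hcard (insert t A) hb' hc' hN3 (by rw [e1]; exact hcase)
              rwa [e1, e2, e3] at this
        have k1 := mul_le_mul_of_nonneg_left iho hq0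
        have k2 := mul_le_mul_of_nonneg_left ihc (show (0:ℝ) ≤ 1 - q by linarith)
        nlinarith
      · -- the level `τ` is crossed
        push Not at hcase
        have hlt : β2 < β1 := by linarith
        set r := (1 - β2 - τ) / (β1 - β2) with hr
        have hr0 : 0 ≤ r := div_nonneg (by linarith) (by linarith)
        have hr1 : r ≤ 1 := by
          rw [hr, div_le_one (by linarith)]; linarith
        have hreq : r * β1 + (1 - r) * β2 = 1 - τ := by
          have : r * (β1 - β2) = 1 - β2 - τ := div_mul_cancel₀ _ (by linarith)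
          linarith
        have hqr : q ≤ r := by
          rw [hr, le_div_iff₀ (by linarith)]; linarith
        -- change the probability of the edge to `r`
        set p' := Function.update p s(s, t) r with hp'
        have hp'' : ∀ e, 0 ≤ p' e ∧ p' e ≤ 1 := by
          intro e
          by_cases h : e = s(s, t)
          · rw [h, hp', Function.update_self]; exact ⟨hr0, hr1⟩
          · rw [hp', Function.update_of_ne h]; exact hp e
        have hst := static hp'' A hc (b := b) (insert s(s, t) H')
        have hpp : ∀ f : Finset (Sym2 V) → ℝ, ex p' H' f = ex p H' f := fun f =>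
          ex_congr_p f fun e he => by
            have hne : e ≠ s(s, t) := by
              rintro rfl
              exact he' he
            rw [hp', Function.update_of_ne hne]
        have hpr : p' s(s, t) = r := by rw [hp', Function.update_self]
        rw [ex_insert p' he', ex_insert p' he', ex_insert p' he', ex_insert p' he', hpr] at hst
        simp only [hpp] at hst
        rw [← hβ1, ← hβ2, ← hv1, ← hv2, ← hu1, ← hu2, hN1, ← hN2, hreq] at hst
        have hst' : τ * (ε - τ) ≤ (1 - τ) * (r * v1 + (1 - r) * v2)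
            + τ * (r * u1 + (1 - r) * u2) := by
          have : τ * (ε - τ) ≤ τ * (N2 - τ) :=
            mul_le_mul_of_nonneg_left (by linarith) h0.le
          linarith
        -- affine interpolation
        have hφr : 0 ≤ (1 - τ) * ((1 - τ) * (r * v1 + (1 - r) * v2)
            + τ * (r * u1 + (1 - r) * u2)) - τ * (ε - τ) * (r * β1 + (1 - r) * β2) := by
          rw [hreq]
          have := mul_le_mul_of_nonneg_left hst' (show (0:ℝ) ≤ 1 - τ by linarith)
          linarith
        rcases hr0.eq_or_lt with h | h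
        · have hq00 : q = 0 := le_antisymm (by rw [h]; exact hqr) hq0
          rw [hq00]
          linarith
        · have k1 := mul_nonneg hq0 hφr
          have k2 := mul_nonneg (show (0:ℝ) ≤ r - q by linarith) (sub_nonneg.2 ihc)
          have k3 : 0 ≤ r * ((1 - τ) * ((1 - τ) * (q * v1 + (1 - q) * v2)
            + τ * (q * u1 + (1 - q) * u2)) - τ * (ε - τ) * (q * β1 + (1 - q) * β2)) := by
            have : r * ((1 - τ) * ((1 - τ) * (q * v1 + (1 - q) * v2)
                + τ * (q * u1 + (1 - q) * u2)) - τ * (ε - τ) * (q * β1 + (1 - q) * β2))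
              = q * ((1 - τ) * ((1 - τ) * (r * v1 + (1 - r) * v2)
                + τ * (r * u1 + (1 - r) * u2)) - τ * (ε - τ) * (r * β1 + (1 - r) * β2))
              + (r - q) * ((1 - τ) * ((1 - τ) * v2 + τ * u2) - τ * (ε - τ) * β2) := by ring
            rw [this]
            exact add_nonneg k1 k2
          have k4 := nonneg_of_mul_nonneg_right k3 h
          linarith
    · push Not at hex
      have hb' : ∀ S ⊆ H, ¬ JoinedTo S A b := by
        intro S hS h
        refine hb (cl_min (Z := A) (fun _ h => h) (fun y z hy hyz => ?_) h)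
        by_contra hz
        exact hex y z hy hz (hS hyz)
      have e1 : ex p H (fun S => ind (JoinedTo S A b)) = 0 := by
        rw [← ex_zero p H]
        exact ex_congr fun S hS => ind_false (hb' S hS)
      rw [e1, mul_zero]
      refine mul_nonneg (by linarith) (add_nonneg (mul_nonneg (by linarith) ?_)
        (mul_nonneg h0.le ?_)) <;> exact ex_nonneg hp fun S _ => ind_nonneg _

/-- the three terminal statement for subsets of a finite set of edges -/
lemma three_terminal {p : Sym2 V → ℝ} (hp : ∀ e, 0 ≤ p e ∧ p e ≤ 1) (H : Finset (Sym2 V))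
    {a b c : V} (hab : a ≠ b) (hac : a ≠ c) {ε : ℝ} (hε : 0 < ε)
    (hu : ex p H (fun S => ind (JoinedTo S {a} b ∧ ¬ JoinedTo S {a} c)) < ε ^ 3 / 4)
    (hv : ex p H (fun S => ind (JoinedTo S {a} c ∧ ¬ JoinedTo S {a} b)) < ε ^ 3 / 4)
    (hx : ε ≤ ex p H (fun S => ind (JoinedTo S {a} b ∧ JoinedTo S {a} c)))
    (hz : ε ≤ ex p H (fun S => ind (¬ JoinedTo S {a} b ∧ ¬ JoinedTo S {a} c ∧ ¬ JoinedTo S {b} c))) :
    False := by
  have hε1 : ε ≤ 1 := hx.trans (ex_le_one hp fun S _ => ind_le_one _)
  have hβx : ε ≤ ex p H (fun S => ind (JoinedTo S {a} b)) :=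
    hx.trans (ex_mono hp fun S _ => ind_mono fun h => h.1)
  have hN : ε ≤ ex p H (fun S => ind (¬ JoinedTo S {b} c)) :=
    hz.trans (ex_mono hp fun S _ => ind_mono fun h => h.2.2)
  have hN' : ε ≤ ex p H (fun S => ind (¬ Out S {a} b c)) :=
    hN.trans (ex_mono hp fun S _ => ind_mono fun h h' =>
      h (cl_mono (fun _ _ h => h.1) (fun _ h => h) h'))
  have hε3 : ε ^ 3 / 4 ≤ ε / 2 := by nlinarith [mul_pos hε hε]
  by_cases hθ : ε / 2 ≤ 1 - ex p H (fun S => ind (JoinedTo S {a} b))
  · have key := main_ineq (τ := ε / 2) (ε := ε) (by linarith) (by linarith) hε1 H.card p hp H rfl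
      {a} (fun h => hab h.symm) (fun h => hac h.symm) hN' hθ
    set β := ex p H (fun S => ind (JoinedTo S {a} b))
    set u := ex p H (fun S => ind (JoinedTo S {a} b ∧ ¬ JoinedTo S {a} c))
    set v := ex p H (fun S => ind (JoinedTo S {a} c ∧ ¬ JoinedTo S {a} b))
    have h1 : ε ^ 3 / 4 ≤ ε / 2 * (ε - ε / 2) * β := by
      have := mul_le_mul_of_nonneg_left hβx (show (0:ℝ) ≤ ε ^ 2 / 4 by positivity)
      nlinarith
    have h2 : (1 - ε / 2) * ((1 - ε / 2) * v + ε / 2 * u)
        ≤ (1 - ε / 2) * ((1 - ε / 2) * (ε ^ 3 / 4) + ε / 2 * (ε ^ 3 / 4)) := by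
      refine mul_le_mul_of_nonneg_left ?_ (by linarith)
      refine add_le_add (mul_le_mul_of_nonneg_left hv.le (by linarith))
        (mul_le_mul_of_nonneg_left hu.le (by linarith))
    have h3 : 0 < ε ^ 3 := by positivity
    nlinarith
  · push Not at hθ
    have h1 : ex p H (fun S => ind (¬ JoinedTo S {b} c))
        ≤ ex p H (fun S => (1 + (-1) * ind (JoinedTo S {a} b))
          + ind (JoinedTo S {a} b ∧ ¬ JoinedTo S {a} c)) := by
      refine ex_mono hp fun S _ => ?_
      by_cases h1 : JoinedTo S {a} b
      · by_cases h2 : JoinedTo S {a} c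
        · have h3 : JoinedTo S {b} c := cl_trans (cl_symm (adj_symm S) h1) h2
          simp_all [ind]
        · by_cases h3 : JoinedTo S {b} c <;> simp_all [ind]
      · by_cases h2 : JoinedTo S {a} c <;> by_cases h3 : JoinedTo S {b} c <;> simp_all [ind]
    rw [ex_add, ex_add, ex_one, ex_mul_left] at h1
    linarith

end closure

end Pool.Agent.PercThree
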